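import Pool.Agent.H484.AL.Stm

/-!
# Project AL (helper484), MASS: total length of the cylinders
-/

set_option autoImplicit false

namespace Pool.Agent.H32.AL

open Finset
open scoped Classical
open Pool.Agent.H484.AL

theorem tele (s : ℝ) (hs : 0 ≤ s) (D : ℕ) :
    ∑ c ∈ Finset.Icc 1 D, (1 + s) / (((c : ℝ) + s) * ((c : ℝ) + 1 + s)) * (1 : ℝ) =
      1 - (1 + s) / ((D : ℝ) + 1 + s) := by
  induction D with
  | zero =>
    have h : (1 : ℝ) + s ≠ 0 := by positivity
    simp [h]
  | succ D ih =>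
    rw [Finset.sum_Icc_succ_top (by omega), ih]
    have h1 : (D : ℝ) + 1 + s ≠ 0 := by positivity
    have h2 : (D : ℝ) + 1 + 1 + s ≠ 0 := by positivity
    push_cast
    field_simp
    ring

theorem mass (hTREE : S_TREE) : S_MASS := by
  intro D n hD
  have hD' : (1 : ℝ) ≤ D := by exact_mod_cast hD
  have hprod : ∀ w : List ℕ, (w.map (fun _ : ℕ => (1 : ℝ))).prod = 1 := by
    intro w
    simp
  constructor
  · have hρ : (0 : ℝ) ≤ 1 - 2 / ((D : ℝ) + 1) := by
      rw [sub_nonneg, div_le_one (by positivity)]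
      linarith
    have h := (hTREE D n (fun _ => 1) (1 - 2 / ((D : ℝ) + 1)) (fun _ => zero_le_one) hρ).2 (by
      intro s hs0 hs1
      rw [tele s hs0 D]
      have : (1 + s) / ((D : ℝ) + 1 + s) ≤ 2 / ((D : ℝ) + 1) := by
        rw [div_le_div_iff₀ (by positivity) (by positivity)]
        nlinarith
      linarith)
    simp only [hprod, mul_one] at h
    have hB : (-2 : ℝ) ≤ -(2 / ((D : ℝ) + 1)) := by
      rw [neg_le_neg_iff, div_le_iff₀ (by positivity)]
      linarith
    have hBern := one_add_mul_le_pow hB n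
    refine le_trans ?_ (hBern.trans (le_of_eq_of_le ?_ h))
    · have : (n : ℝ) * -(2 / ((D : ℝ) + 1)) = -(2 * (n : ℝ) / ((D : ℝ) + 1)) := by ring
      rw [this]
      linarith
    · rw [← sub_eq_add_neg]
  · have h := (hTREE D n (fun _ => 1) 1 (fun _ => zero_le_one) zero_le_one).1 (by
      intro s hs0 _
      rw [tele s hs0 D]
      have : 0 ≤ (1 + s) / ((D : ℝ) + 1 + s) := by positivity
      linarith)
    simp only [hprod, mul_one, one_pow] at h
    exact h

end Pool.Agent.H32.AL

theorem Pool.Agent.H484.AL.t_MASS (hTREE : Pool.Agent.H484.AL.S_TREE) :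
    Pool.Agent.H484.AL.S_MASS := Pool.Agent.H32.AL.mass hTREE
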