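import Pool.Agent.H484.AL.Stm

/-!
# Project AL (helper484), REST: the sum over the subsets with at least two elements
-/

set_option autoImplicit false

namespace Pool.Agent.H32.AL

open Finset
open scoped Classical
open Pool.Agent.H484.AL

theorem sum_inv_sup {ι : Type} (f : ι → ℕ) (R : ℕ) (hR : 3 ≤ R) (L : Finset ι) :
    (∀ x ∈ L, 1 ≤ f x) → (∀ x ∈ L, ∀ y ∈ L, x ≠ y → f x ≤ f y → R * f x ≤ f y) →
    ∀ μ : ℕ, 1 ≤ μ → (∀ x ∈ L, R * μ ≤ f x) →
      ∑ J ∈ L.powerset, 1 / ((J.sup f : ℕ) : ℝ) ≤ 1 / (((R : ℝ) - 2) * μ) := by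
  have hR' : (3 : ℝ) ≤ R := by exact_mod_cast hR
  have hR2 : (0 : ℝ) < (R : ℝ) - 2 := by linarith
  refine Finset.induction_on_min_value f L ?_ ?_
  · intro _ _ μ hμ _
    have hμ' : (0 : ℝ) < μ := by exact_mod_cast hμ
    rw [powerset_empty, sum_singleton, sup_empty]
    have : (((⊥ : ℕ) : ℕ) : ℝ) = 0 := by simp
    rw [this, div_zero]
    positivity
  · intro a s ha hmin ih hpos hsep μ hμ hle
    rw [Finset.sum_powerset_insert ha]
    have hU := ih (fun x hx => hpos x (mem_insert_of_mem hx))
      (fun x hx y hy => hsep x (mem_insert_of_mem hx) y (mem_insert_of_mem hy))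
      (f a) (hpos a (mem_insert_self a s))
      (fun x hx => hsep a (mem_insert_self _ _) x (mem_insert_of_mem hx)
        (by rintro rfl; exact ha hx) (hmin x hx))
    have hb : ∑ J ∈ s.powerset, 1 / (((insert a J).sup f : ℕ) : ℝ) ≤
        ∑ J ∈ s.powerset, 1 / ((J.sup f : ℕ) : ℝ) + 1 / (f a : ℝ) := by
      have h1 : ∀ J ∈ s.powerset, 1 / (((insert a J).sup f : ℕ) : ℝ) ≤
          1 / ((J.sup f : ℕ) : ℝ) + (if J = ∅ then 1 / (f a : ℝ) else 0) := by
        intro J hJ
        rw [sup_insert]
        split_ifs with h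
        · subst h
          simp
        · obtain ⟨x, hx⟩ := nonempty_iff_ne_empty.2 h
          have h2 : 1 ≤ J.sup f :=
            (hpos x (mem_insert_of_mem (mem_powerset.1 hJ hx))).trans (le_sup (f := f) hx)
          rw [add_zero]
          apply one_div_le_one_div_of_le
          · exact_mod_cast h2
          · exact_mod_cast (le_sup_right : J.sup f ≤ f a ⊔ J.sup f)
      refine (sum_le_sum h1).trans ?_
      rw [sum_add_distrib, sum_ite_eq' s.powerset ∅, if_pos (empty_mem_powerset s)]
    have hfa1 := hpos a (mem_insert_self a s)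
    have hfa : (0 : ℝ) < f a := by exact_mod_cast hfa1
    have hμ' : (0 : ℝ) < μ := by exact_mod_cast hμ
    have hle' : (R : ℝ) * μ ≤ f a := by exact_mod_cast hle a (mem_insert_self a s)
    have e : 1 / (((R : ℝ) - 2) * f a) + (1 / (((R : ℝ) - 2) * f a) + 1 / (f a : ℝ)) =
        R / (((R : ℝ) - 2) * f a) := by
      field_simp
      ring
    have h3 : (R : ℝ) / (((R : ℝ) - 2) * f a) ≤ 1 / (((R : ℝ) - 2) * μ) := by
      rw [div_le_div_iff₀ (mul_pos hR2 hfa) (mul_pos hR2 hμ')]
      nlinarith
    linarith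

theorem rest : S_REST := by
  intro d R K hR
  have hR' : (3 : ℝ) ≤ R := by exact_mod_cast hR
  have hR2 : (0 : ℝ) < (R : ℝ) - 2 := by linarith
  refine Finset.induction_on_min_value (fun k : Fin (d + 1) → ℤ => (k 0).natAbs) K ?_ ?_
  · intro _ _
    rw [powerset_empty, sum_empty, mul_zero, filter_false_of_mem]
    · rw [sum_empty]
    · intro J hJ
      rw [mem_singleton] at hJ
      subst hJ
      simp
  · intro a s ha hmin ih hne hsep
    have hs := ih (fun k hk => hne k (mem_insert_of_mem hk))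
      (fun k hk k' hk' => hsep k (mem_insert_of_mem hk) k' (mem_insert_of_mem hk'))
    have hpos : ∀ k ∈ insert a s, ∀ i, 1 ≤ (k i).natAbs := fun k hk i =>
      Int.natAbs_pos.2 (hne k hk i)
    have hsepN : ∀ x ∈ insert a s, ∀ y ∈ insert a s, x ≠ y → (x 0).natAbs ≤ (y 0).natAbs →
        R * (x 0).natAbs ≤ (y 0).natAbs := by
      intro x hx y hy hxy hle
      rcases hsep x hx y hy hxy 0 with h | h
      · exfalso
        rw [Int.abs_eq_natAbs, Int.abs_eq_natAbs] at h
        have h1 : R * (y 0).natAbs ≤ (x 0).natAbs := by exact_mod_cast h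
        have h2 := hpos y hy 0
        nlinarith
      · rw [Int.abs_eq_natAbs, Int.abs_eq_natAbs] at h
        exact_mod_cast h
    have hU := sum_inv_sup (fun k : Fin (d + 1) → ℤ => (k 0).natAbs) R hR s
      (fun x hx => hpos x (mem_insert_of_mem hx) 0)
      (fun x hx y hy => hsepN x (mem_insert_of_mem hx) y (mem_insert_of_mem hy))
      (a 0).natAbs (hpos a (mem_insert_self a s) 0)
      (fun x hx => hsepN a (mem_insert_self _ _) x (mem_insert_of_mem hx)
        (by rintro rfl; exact ha hx) (hmin x hx))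
    have habs : ∀ i, |((a i : ℤ) : ℝ)| = ((a i).natAbs : ℝ) := by
      intro i
      rw [Nat.cast_natAbs, Int.cast_abs]
    rw [sum_filter] at hs ⊢
    rw [Finset.sum_powerset_insert ha, Finset.sum_insert ha, mul_add]
    have hapos : (0 : ℝ) < ((a 0).natAbs : ℝ) := by
      exact_mod_cast hpos a (mem_insert_self a s) 0
    have hv : ∏ i, (1 / |((a i : ℤ) : ℝ)|) =
        1 / ((a 0).natAbs : ℝ) * ∏ i : Fin d, (1 / ((a i.succ).natAbs : ℝ)) := by
      rw [Fin.prod_univ_succ]
      simp only [habs]
    obtain ⟨w, hw⟩ : ∃ w : ℝ, w = ∏ i : Fin d, (1 / ((a i.succ).natAbs : ℝ)) := ⟨_, rfl⟩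
    have hw0 : 0 ≤ w := by
      rw [hw]
      exact prod_nonneg fun i _ => by positivity
    have hb : ∑ J ∈ s.powerset, (if 2 ≤ (insert a J).card then
        ∏ i, (1 / (((insert a J).sup (fun k => (k i).natAbs) : ℕ) : ℝ)) else 0) ≤
        w * ∑ J ∈ s.powerset, 1 / ((J.sup (fun k => (k 0).natAbs) : ℕ) : ℝ) := by
      rw [mul_sum]
      refine sum_le_sum fun J hJ => ?_
      have hJs := mem_powerset.1 hJ
      have haJ : a ∉ J := fun h => ha (hJs h)
      rw [card_insert_of_notMem haJ]
      split_ifs with h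
      · have hJne : J.Nonempty := card_pos.1 (by omega)
        obtain ⟨x, hx⟩ := hJne
        have hx1 : 1 ≤ J.sup (fun k => (k 0).natAbs) :=
          (hpos x (mem_insert_of_mem (hJs hx)) 0).trans
            (le_sup (f := fun k : Fin (d + 1) → ℤ => (k 0).natAbs) hx)
        rw [Fin.prod_univ_succ, mul_comm w]
        refine mul_le_mul ?_ ?_ (prod_nonneg fun i _ => by positivity) (by positivity)
        · apply one_div_le_one_div_of_le
          · exact_mod_cast hx1
          · rw [sup_insert]
            exact_mod_cast (le_sup_right : J.sup (fun k => (k 0).natAbs) ≤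
              (a 0).natAbs ⊔ J.sup (fun k => (k 0).natAbs))
        · rw [hw]
          refine prod_le_prod (fun i _ => by positivity) fun i _ => ?_
          apply one_div_le_one_div_of_le
          · exact_mod_cast hpos a (mem_insert_self a s) i.succ
          · rw [sup_insert]
            exact_mod_cast (le_sup_left : (a i.succ).natAbs ≤
              (a i.succ).natAbs ⊔ J.sup (fun k => (k i.succ).natAbs))
      · positivity
    have hb2 := hb.trans (mul_le_mul_of_nonneg_left hU hw0)
    rw [hv, ← hw]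
    have e : w * (1 / (((R : ℝ) - 2) * ((a 0).natAbs : ℝ))) =
        1 / ((R : ℝ) - 2) * (1 / ((a 0).natAbs : ℝ) * w) := by
      field_simp
    rw [e] at hb2
    linarith

end Pool.Agent.H32.AL

theorem Pool.Agent.H484.AL.t_REST : Pool.Agent.H484.AL.S_REST := Pool.Agent.H32.AL.rest
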